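import Pool.Agent.Helper17.SL.GoalsB

/-!
# Project SL, packet BBA: the p-adic theorem of Baker and Brumer from the general theorem
-/

namespace Pool.Agent.Helper17.SL.PkBBA

open Pool.Agent.Helper51.SigLeo Pool.Agent.Helper51.SixExp NumberField Module

universe u v

/-- a functional on `ℚ ^ n` in coordinates -/
theorem fun_eq {n : ℕ} (q : (Fin n → ℚ) →ₗ[ℚ] ℚ) (v : Fin n → ℚ) :
    q v = ∑ i, v i * q (Pi.single i 1) := by
  have h : v = ∑ i, v i • (Pi.single i (1 : ℚ) : Fin n → ℚ) := by
    ext j
    simp [Finset.sum_apply, Pi.single_apply]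
  conv_lhs => rw [h]
  rw [map_sum]
  exact Finset.sum_congr rfl fun i _ => by rw [map_smul, smul_eq_mul]

section
variable {Ω : Type u} [Field Ω] [CharZero Ω] {m : ℕ} (e : Fin (m + 1) → Ω)

/-- the maps `X i` -/
noncomputable def XX (i : Fin m) : (Fin (m + 1) → ℚ) →ₗ[ℚ] Ω where
  toFun a := (a i.castSucc : Ω) - e i.castSucc / e (Fin.last m) * (a (Fin.last m) : Ω)
  map_add' a b := by
    simp only [Pi.add_apply, Rat.cast_add]
    ring
  map_smul' c a := by
    simp only [Pi.smul_apply, smul_eq_mul, Rat.cast_mul, RingHom.id_apply, Rat.smul_def]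
    ring

theorem XX_apply (i : Fin m) (a : Fin (m + 1) → ℚ) : XX e i a =
    (a i.castSucc : Ω) - e i.castSucc / e (Fin.last m) * (a (Fin.last m) : Ω) := rfl

theorem e_ne (he : LinearIndependent ℚ e) : e (Fin.last m) ≠ 0 := he.ne_zero _

theorem spanX_top : spanX (XX e) ⊤ = ⊤ := by
  rw [eq_top_iff, ← (Pi.basisFun Ω (Fin m)).span_eq, Submodule.span_le]
  rintro _ ⟨i, rfl⟩
  refine Submodule.subset_span ⟨Pi.single i.castSucc 1, trivial, ?_⟩
  ext j
  rw [Pi.basisFun_apply, XX_apply]
  have h1 : (Pi.single i.castSucc (1 : ℚ) : Fin (m + 1) → ℚ) (Fin.last m) = 0 := by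
    rw [Pi.single_apply, if_neg (Fin.castSucc_lt_last i).ne']
  rw [h1, Rat.cast_zero, mul_zero, sub_zero, Pi.single_apply, Pi.single_apply]
  by_cases h : j = i
  · rw [if_pos h, if_pos (by rw [h]), Rat.cast_one]
  · rw [if_neg h, if_neg (fun h' => h (Fin.castSucc_injective m h')), Rat.cast_zero]

theorem finrank_spanX (he : LinearIndependent ℚ e) (E : Submodule ℚ (Fin (m + 1) → ℚ))
    (hE : E ≠ ⊤) : finrank ℚ E ≤ finrank Ω (spanX (XX e) E) := by
  classical
  set d := finrank ℚ E with hd
  let b : Basis (Fin d) ℚ E := finBasis ℚ E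
  -- a left inverse
  let g : (Fin d → ℚ) →ₗ[ℚ] (Fin (m + 1) → ℚ) := E.subtype ∘ₗ b.equivFun.symm.toLinearMap
  have hg : LinearMap.ker g = ⊥ := by
    rw [LinearMap.ker_eq_bot]
    exact E.injective_subtype.comp b.equivFun.symm.injective
  obtain ⟨L, hL⟩ := LinearMap.exists_leftInverse_of_injective g hg
  have hLb : ∀ j l, L (b j : Fin (m + 1) → ℚ) l = if j = l then 1 else 0 := by
    intro j l
    have h1 : g (Pi.single j 1) = (b j : Fin (m + 1) → ℚ) := by
      show ((b.equivFun.symm (Pi.single j 1) : E) : Fin (m + 1) → ℚ) = _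
      rw [b.equivFun_symm_apply]
      simp [Pi.single_apply]
    have h2 := LinearMap.congr_fun hL (Pi.single j 1)
    rw [LinearMap.comp_apply, h1, LinearMap.id_apply] at h2
    rw [h2, Pi.single_apply]
    by_cases h : j = l
    · rw [if_pos h.symm, if_pos h]
    · rw [if_neg (Ne.symm h), if_neg h]
  -- a functional
  obtain ⟨q, hq0, hq⟩ := Submodule.exists_le_ker_of_lt_top E (lt_top_iff_ne_top.2 hE)
  have hqe : ∑ i, (q (Pi.single i 1) : Ω) * e i ≠ 0 := by
    intro h0
    have h1 := Fintype.linearIndependent_iff.1 he (fun i => q (Pi.single i 1)) (by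
      rw [← h0]
      exact Finset.sum_congr rfl fun i _ => by rw [Rat.smul_def])
    apply hq0
    ext i
    simp only [LinearMap.comp_apply, LinearMap.zero_apply]
    exact h1 i
  have hli : LinearIndependent Ω (fun j : Fin d => fun i : Fin m => XX e i (b j)) := by
    rw [Fintype.linearIndependent_iff]
    intro c hc
    -- the vector `w`
    let w : Fin (m + 1) → Ω := fun i => ∑ j, c j * ((b j : Fin (m + 1) → ℚ) i : Ω)
    have hw1 : ∀ i : Fin m, w i.castSucc = e i.castSucc / e (Fin.last m) * w (Fin.last m) := by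
      intro i
      have h1 := congrFun hc i
      rw [Finset.sum_apply] at h1
      simp only [Pi.smul_apply, smul_eq_mul, Pi.zero_apply, XX_apply] at h1
      have h2 : ∑ j, c j * (((b j : Fin (m + 1) → ℚ) i.castSucc : Ω) -
          e i.castSucc / e (Fin.last m) * ((b j : Fin (m + 1) → ℚ) (Fin.last m) : Ω)) =
          w i.castSucc - e i.castSucc / e (Fin.last m) * w (Fin.last m) := by
        show _ = (∑ j, c j * ((b j : Fin (m + 1) → ℚ) i.castSucc : Ω)) -
          e i.castSucc / e (Fin.last m) * ∑ j, c j * ((b j : Fin (m + 1) → ℚ) (Fin.last m) : Ω)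
        rw [Finset.mul_sum, ← Finset.sum_sub_distrib]
        exact Finset.sum_congr rfl fun j _ => by ring
      rw [h2] at h1
      exact sub_eq_zero.1 h1
    have hel := e_ne e he
    have hw2 : ∀ i : Fin (m + 1), w i = w (Fin.last m) / e (Fin.last m) * e i := by
      intro i
      induction i using Fin.lastCases with
      | last => rw [div_mul_cancel₀ _ hel]
      | cast i => rw [hw1 i]; ring
    have hqw : ∑ i, (q (Pi.single i 1) : Ω) * w i = 0 := by
      have h1 : ∀ j, ∑ i, (q (Pi.single i 1) : Ω) * ((b j : Fin (m + 1) → ℚ) i : Ω) = 0 := by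
        intro j
        have h2 : q (b j : Fin (m + 1) → ℚ) = 0 := hq (b j).2
        rw [fun_eq] at h2
        have h3 : ((∑ i, (b j : Fin (m + 1) → ℚ) i * q (Pi.single i 1) : ℚ) : Ω) = 0 := by
          rw [h2, Rat.cast_zero]
        rw [← h3, Rat.cast_sum]
        exact Finset.sum_congr rfl fun i _ => by rw [Rat.cast_mul, mul_comm]
      calc ∑ i, (q (Pi.single i 1) : Ω) * w i
          = ∑ i, ∑ j, c j * ((q (Pi.single i 1) : Ω) * ((b j : Fin (m + 1) → ℚ) i : Ω)) := by
            refine Finset.sum_congr rfl fun i _ => ?_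
            rw [Finset.mul_sum]
            exact Finset.sum_congr rfl fun j _ => by ring
        _ = ∑ j, c j * ∑ i, (q (Pi.single i 1) : Ω) * ((b j : Fin (m + 1) → ℚ) i : Ω) := by
            rw [Finset.sum_comm]
            exact Finset.sum_congr rfl fun j _ => by rw [Finset.mul_sum]
        _ = 0 := Finset.sum_eq_zero fun j _ => by rw [h1 j, mul_zero]
    have hlast : w (Fin.last m) = 0 := by
      have h1 : ∑ i, (q (Pi.single i 1) : Ω) * w i =
          w (Fin.last m) / e (Fin.last m) * ∑ i, (q (Pi.single i 1) : Ω) * e i := by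
        rw [Finset.mul_sum]
        exact Finset.sum_congr rfl fun i _ => by rw [hw2 i]; ring
      rw [hqw] at h1
      rcases mul_eq_zero.1 h1.symm with h2 | h2
      · rcases div_eq_zero_iff.1 h2 with h3 | h3
        · exact h3
        · exact absurd h3 hel
      · exact absurd h2 hqe
    have hw0 : ∀ i, w i = 0 := by
      intro i
      rw [hw2 i, hlast, zero_div, zero_mul]
    intro l
    -- apply the functional `L l`
    let φ : (Fin (m + 1) → ℚ) →ₗ[ℚ] ℚ := LinearMap.proj l ∘ₗ L
    have h1 : ∑ i, (φ (Pi.single i 1) : Ω) * w i = c l := by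
      calc ∑ i, (φ (Pi.single i 1) : Ω) * w i
          = ∑ i, ∑ j, c j * ((φ (Pi.single i 1) : Ω) * ((b j : Fin (m + 1) → ℚ) i : Ω)) := by
            refine Finset.sum_congr rfl fun i _ => ?_
            rw [Finset.mul_sum]
            exact Finset.sum_congr rfl fun j _ => by ring
        _ = ∑ j, c j * ∑ i, (φ (Pi.single i 1) : Ω) * ((b j : Fin (m + 1) → ℚ) i : Ω) := by
            rw [Finset.sum_comm]
            exact Finset.sum_congr rfl fun j _ => by rw [Finset.mul_sum]
        _ = ∑ j, c j * (if j = l then 1 else 0) := by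
            refine Finset.sum_congr rfl fun j _ => ?_
            congr 1
            have h2 : φ (b j : Fin (m + 1) → ℚ) = if j = l then 1 else 0 := hLb j l
            rw [fun_eq] at h2
            have h3 : ((∑ i, (b j : Fin (m + 1) → ℚ) i * φ (Pi.single i 1) : ℚ) : Ω) =
                ((if j = l then 1 else 0 : ℚ) : Ω) := by rw [h2]
            rw [Rat.cast_sum] at h3
            have h4 : ((if j = l then 1 else 0 : ℚ) : Ω) = if j = l then 1 else 0 := by
              split_ifs
              · exact Rat.cast_one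
              · exact Rat.cast_zero
            rw [h4] at h3
            rw [← h3]
            exact Finset.sum_congr rfl fun i _ => by rw [Rat.cast_mul, mul_comm]
        _ = c l := by simp
    rw [← h1]
    exact Finset.sum_eq_zero fun i _ => by rw [hw0 i, mul_zero]
  have hspan : Submodule.span Ω (Set.range fun j : Fin d => fun i : Fin m => XX e i (b j)) ≤
      spanX (XX e) E := by
    rw [Submodule.span_le]
    rintro _ ⟨j, rfl⟩
    exact Submodule.subset_span ⟨b j, (b j).2, rfl⟩
  have h1 := Submodule.finrank_mono hspan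
  rw [finrank_span_eq_card hli, Fintype.card_fin] at h1
  exact h1

end

theorem isLog_sum {p : ℕ} {k : Type v} [NormedField k] [CharZero k] {Ω : Type u} [Field Ω]
    [CharZero Ω] (Λ : IwasawaLog p k) (ι : Ω →+* k)
    (h : IsLog Λ ι 0 ∧ (∀ x y, IsLog Λ ι x → IsLog Λ ι y → IsLog Λ ι (x + y)) ∧
      (∀ (q : ℚ) x, IsLog Λ ι x → IsLog Λ ι (q • x))) {n : ℕ} (x : Fin n → k)
    (hx : ∀ i, IsLog Λ ι (x i)) (a : Fin n → ℚ) : IsLog Λ ι (∑ i, a i • x i) := by
  classical
  have : ∀ S : Finset (Fin n), IsLog Λ ι (∑ i ∈ S, a i • x i) := by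
    intro S
    induction S using Finset.induction_on with
    | empty => simpa using h.1
    | insert i S hi ih =>
      rw [Finset.sum_insert hi]
      exact h.2.1 _ _ (h.2.2 _ _ (hx i)) ih
  exact this Finset.univ

theorem thm (h1 : S_GEN.{u, v, 0, 0, 0}) (h2 : S_SC.{u, v}) : S_BBA.{u, v} := by
  intro p _ k _ _ _ _ _ Ω _ _ _ ι Λ n e x he hx hsum
  classical
  rcases n with _ | m
  · intro i
    exact i.elim0
  have hel : e (Fin.last m) ≠ 0 := he.ne_zero _
  have hιel : ι (e (Fin.last m)) ≠ 0 := (map_ne_zero ι).2 hel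
  rw [Fin.sum_univ_castSucc] at hsum
  rcases Nat.eq_zero_or_pos m with hm | hm
  · subst hm
    intro i
    have hi : i = Fin.last 0 := by
      apply Fin.ext
      have := i.isLt
      rw [Fin.val_last]
      omega
    rw [hi]
    rw [Fin.sum_univ_zero, zero_add] at hsum
    exact (mul_eq_zero.1 hsum).resolve_left hιel
  -- the form
  let Y : Unit → (Fin (m + 1) → ℚ) →ₗ[ℚ] k := fun _ => Fintype.linearCombination ℚ x
  have hY : ∀ (j : Unit) (a : Fin (m + 1) → ℚ), Y j a = ∑ i, a i • x i := fun j a => rfl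
  have hYX : ∀ (j : Unit) (a : Fin (m + 1) → ℚ),
      Y j a = ∑ i : Fin m, x i.castSucc * ι (XX e i a) := by
    intro j a
    rw [hY j a, Fin.sum_univ_castSucc]
    have h3 : ∀ i : Fin m, x i.castSucc * ι (XX e i a) = a i.castSucc • x i.castSucc -
        (a (Fin.last m) : k) / ι (e (Fin.last m)) * (ι (e i.castSucc) * x i.castSucc) := by
      intro i
      rw [XX_apply, map_sub, map_mul, map_div₀, map_ratCast, map_ratCast, Rat.smul_def]
      ring
    rw [Finset.sum_congr rfl fun i _ => h3 i, Finset.sum_sub_distrib, ← Finset.mul_sum,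
      eq_neg_of_add_eq_zero_left hsum, Rat.smul_def]
    field_simp
    ring
  have hm2 : (0 : ℝ) < (m : ℝ) + 3 := by positivity
  set β : ℝ := 1 / ((m : ℝ) + 3) with hβ
  have hβ0 : 0 < β := by positivity
  have hβ1 : β < 1 := by
    rw [hβ, div_lt_one hm2]
    have : (0 : ℝ) ≤ m := Nat.cast_nonneg m
    linarith
  obtain ⟨E, hE1, hE2⟩ := h1 p k Ω ι Λ (Fin (m + 1) → ℚ) (Fin m) Unit (XX e) Y m β
    (fun j a => by
      rw [hY j a]
      exact isLog_sum Λ ι (h2 p k Ω ι Λ) x hx a)
    hm
    (by
      have hle : Submodule.span k ((Set.range fun i : Fin m ↦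
          (fun v ↦ ι (XX e i v) : (Fin (m + 1) → ℚ) → k)) ∪
          (Set.range fun j : Unit ↦ (fun v ↦ Y j v : (Fin (m + 1) → ℚ) → k))) ≤
          Submodule.span k (Set.range fun i : Fin m ↦
          (fun v ↦ ι (XX e i v) : (Fin (m + 1) → ℚ) → k)) := by
        rw [Submodule.span_le, Set.union_subset_iff]
        refine ⟨Submodule.subset_span, ?_⟩
        rintro _ ⟨j, rfl⟩
        have h4 : (fun v ↦ Y j v : (Fin (m + 1) → ℚ) → k) =
            ∑ i : Fin m, x i.castSucc • (fun v ↦ ι (XX e i v) : (Fin (m + 1) → ℚ) → k) := by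
          funext v
          rw [Finset.sum_apply]
          simp only [Pi.smul_apply, smul_eq_mul]
          exact hYX j v
        show (fun v ↦ Y j v : (Fin (m + 1) → ℚ) → k) ∈ _
        rw [h4]
        exact Submodule.sum_mem _ fun i _ =>
          Submodule.smul_mem _ _ (Submodule.subset_span ⟨i, rfl⟩)
      have h5 := finrank_range_le_card (R := k) (fun i : Fin m ↦
          (fun v ↦ ι (XX e i v) : (Fin (m + 1) → ℚ) → k))
      have : FiniteDimensional k (Submodule.span k (Set.range fun i : Fin m ↦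
          (fun v ↦ ι (XX e i v) : (Fin (m + 1) → ℚ) → k))) :=
        FiniteDimensional.span_of_finite k (Set.finite_range _)
      refine (Submodule.finrank_mono hle).trans ?_
      rw [Fintype.card_fin] at h5
      exact h5)
    hβ0 hβ1 (by
      rw [Fintype.card_fin, Fintype.card_unit]
      push_cast
      linarith)
  rw [Fintype.card_fin] at hE1 hE2
  by_cases hE : E = ⊤
  · subst hE
    rw [spanX_top, finrank_top, finrank_pi, Fintype.card_fin] at hE1
    have h3 : finrank ℚ (relY Y ⊤) ≠ 0 := by
      rcases hE1 with h | h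
      · exact absurd rfl h
      · exact h
    have h4 : relY Y ⊤ ≠ ⊥ := by
      intro h0
      rw [h0, finrank_bot] at h3
      exact h3 rfl
    obtain ⟨s, hs, hs0⟩ := Submodule.exists_mem_ne_zero_of_ne_bot h4
    have hs1 : s () ≠ 0 := by
      intro h0
      apply hs0
      funext j
      exact h0
    intro i
    have h5 : ∑ j, s j • Y j (Pi.single i 1) = 0 := hs _ trivial
    rw [Fintype.sum_unique] at h5
    have h6 : Y default (Pi.single i 1) = x i := by
      rw [hY default]
      simp [Pi.single_apply]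
    rw [h6] at h5
    exact (smul_eq_zero.1 h5).resolve_left hs1
  · exfalso
    have h3 := finrank_spanX e he E hE
    have h4 : finrank ℚ E < m + 1 := by
      have := Submodule.finrank_lt hE
      rwa [finrank_pi, Fintype.card_fin] at this
    have h5 : finrank ℚ (relY Y E) ≤ 1 := by
      have := Submodule.finrank_le (relY Y E)
      rwa [finrank_pi, Fintype.card_unit] at this
    rw [finrank_pi, Fintype.card_fin] at hE2
    have h3' : (finrank ℚ E : ℝ) ≤ finrank Ω (spanX (XX e) E) := by exact_mod_cast h3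
    have h4' : (finrank ℚ E : ℝ) + 1 ≤ m + 1 := by exact_mod_cast h4
    have h5' : (finrank ℚ (relY Y E) : ℝ) ≤ 1 := by exact_mod_cast h5
    have h6 : (0 : ℝ) ≤ finrank ℚ E := Nat.cast_nonneg _
    push_cast at hE2
    have h7 : β * ((m : ℝ) + 3) = 1 := by rw [hβ]; field_simp
    have h8 : β * (finrank ℚ (relY Y E) : ℝ) ≤ β * 1 := mul_le_mul_of_nonneg_left h5' hβ0.le
    have h9 : β * ((m : ℝ) + 1 - finrank ℚ E) ≤ β * ((m : ℝ) + 1) :=
      mul_le_mul_of_nonneg_left (by linarith) hβ0.le
    nlinarith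

end Pool.Agent.Helper17.SL.PkBBA
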