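import Mathlib
import Pool.Agent.Helper33.SchurDefs

/-!
The minimum number of monochromatic Schur triples (MP_c13f7d_co): definitions.
`schurMono`, `schurMin` are defined in `Pool/Agent/Helper33/SchurDefs.lean`.
-/

set_option autoImplicit false

open Finset

namespace Pool.Agent.Helper87.SL

open Pool.Agent.Helper33.Schur

/-- The number of the `(a, b, i, j, e)` with `a, b < q`, `i, j < s`, `e ∈ {0, 1}`, `i + j + e < s`
and `c a i = c b j = c ((a + b) mod q) (i + j + e)`. -/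
def cnt {k : ℕ} (q s : ℕ) (c : ℕ → ℕ → Fin k) : ℕ :=
  ∑ a ∈ range q, ∑ b ∈ range q, ∑ i ∈ range s, ∑ j ∈ range s, ∑ e ∈ range 2,
    if i + j + e < s ∧ c a i = c b j ∧ c b j = c ((a + b) % q) (i + j + e) then 1 else 0

/-- The density `cnt / (4 q² s²)`. -/
noncomputable def dens {k : ℕ} (q s : ℕ) (c : ℕ → ℕ → Fin k) : ℝ :=
  (cnt q s c : ℝ) / (4 * (q : ℝ) ^ 2 * (s : ℝ) ^ 2)

/-- The colouring of `{1, …, N}` in which the colour of `x` depends only on `x mod q` and on the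
number `⌊x / ℓ⌋ ∈ {0, …, s - 1}` of the interval of length `ℓ = q (⌊N / (q s)⌋ + 1)` that
contains `x`. -/
def strc {k : ℕ} (q s : ℕ) (c : ℕ → ℕ → Fin k) (N x : ℕ) : Fin k :=
  c (x % q) (x / (q * (N / (q * s) + 1)))

/-! ### working definitions -/

/-- Ordered pairs `(x, y)` in `[1, n]` with `x`, `y`, `x + y - q ∈ [1, n]` of the same colour. -/
def ordP {k : ℕ} (χ : ℕ → Fin k) (n q : ℕ) : ℕ :=
  ((Icc 1 n ×ˢ Icc 1 n).filter
    (fun p => q < p.1 + p.2 ∧ p.1 + p.2 ≤ n + q ∧ χ p.1 = χ p.2 ∧ χ p.2 = χ (p.1 + p.2 - q))).card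

/-- The number of representations `m = x + y` with `x, y ∈ A`. -/
def rep (A : Finset ℕ) (m : ℕ) : ℕ := ((A ×ˢ A).filter (fun p => p.1 + p.2 = m)).card

/-- The sampled number of representations. -/
noncomputable def smp {K : ℕ} (A : Finset ℕ) (I : Fin K → ℕ) (m : ℕ) : ℝ :=
  (A.card : ℝ) / K * ((univ : Finset (Fin K)).filter (fun j => I j ≤ m ∧ m - I j ∈ A)).card

/-- The integer `m ∈ [t + 1, t + q]` with `m ≡ a (mod q)` (for `1 ≤ q`). -/
def mu (q a t : ℕ) : ℕ := t + 1 + (a + (q - 1) * (t + 1)) % q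

end Pool.Agent.Helper87.SL
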