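import Pool.Agent.Helper87.SL.Defs

/-!
# Goals: the asymptotic minimum number of monochromatic Schur triples

`M_k(n) = schurMin k n`. Main theorem (MAIN): `M_k(n) / n²` converges, and the limit is the infimum
of the densities `dens q s c` of the colourings `strc q s c`.
Method: for every `k`-colouring of `[n]` there is a bounded `q` (Croot and Sisask) such that
the functions `1_A * 1_A` of all colour classes `A` are almost invariant under the shift by `q`; the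
colouring of a long interval `[N]` which is locally `x ↦ χ (the integer m ≡ x (mod q), m ≈ x n / N)`
then has the same density of monochromatic Schur triples as `χ`.
-/

set_option autoImplicit false

open Finset Filter Topology

namespace Pool.Agent.Helper87.SL

open Pool.Agent.Helper33.Schur

/-- GOAL ORD. Proof. The pairs counted by `ordP χ n 0` are the ordered pairs `(x, y)` with
`x, y ≥ 1`, `x + y ≤ n` and `χ x = χ y = χ (x + y)`; the relation is symmetric in `x, y`. The pairs with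
`x ≤ y` are counted by `schurMono χ n`; those with `y ≤ x` are mapped to them by the swap. So
`ordP ≤ 2 * schurMono`, and `2 * schurMono = ordP + #(pairs x = y) ≤ ordP + n`. -/
def G_ORD : Prop :=
  ∀ (k n : ℕ) (χ : ℕ → Fin k),
    ordP χ n 0 ≤ 2 * schurMono χ n ∧ 2 * schurMono χ n ≤ ordP χ n 0 + n

/-- GOAL BLK (block colourings). Proof. Let `χ x = c (x % q) (x / (q * m))`, `N' = q s m - 1`, and let `P'` be the
number of the `(x, y) ∈ [0, q s m)²` with `x + y < q s m` and `χ x = χ y = χ (x + y)`. Write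
`x = (i * m + u) * q + a`, `y = (j * m + v) * q + b` with `a, b < q`, `u, v < m`, `i, j < s` (a
bijection; `x % q = a`, `x / (q * m) = i`). With `w = 0` if `a + b < q` and `w = 1` otherwise
`(x + y) % q = (a + b) % q` and `(x + y) / q = (i + j) * m + u + v + w`, `(x + y) / (q * m) = i + j + e` with
`e = 0` if `u + v + w < m` and `e = 1` if `m ≤ u + v + w` (`u + v + w < 2 m`); and `x + y < q s m` iff
`i + j + e < s`. The number of the `(u, v)` with `e = 0` is `m (m + 1) / 2` for `w = 0`,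
`m (m - 1) / 2` for `w = 1`, and with `e = 1` it is `m (m - 1) / 2`, `m (m + 1) / 2`. So
`|2 P' - m² * cnt| ≤ m * cnt ≤ m * 2 q² s²`. Finally `ordP χ N' 0` is `P'` without the pairs with
`x = 0` or `y = 0`, at most `2 q s m` pairs. Total error: `2 m q² s² + 4 q s m ≤ 6 m q² s²`. -/
def G_BLK : Prop :=
  ∀ (k q s m : ℕ) (c : ℕ → ℕ → Fin k), 1 ≤ q → 1 ≤ s → 1 ≤ m →
    |2 * (ordP (fun x => c (x % q) (x / (q * m))) (q * s * m - 1) 0 : ℝ) -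
      (m : ℝ) ^ 2 * cnt q s c| ≤ 6 * m * (q : ℝ) ^ 2 * (s : ℝ) ^ 2

/-- GOAL STR (density of the structured colourings). Proof, from ORD and BLK. Let
`m = N / (q * s) + 1`, so `N < q s m ≤ N + q s`, `N' = q s m - 1 ≥ N`, and `χ = strc q s c N`. By ORD and BLK
`|4 * schurMono χ N' - m² * cnt| ≤ 6 m q² s² + 2 N'`, and `m² cnt / 4 = dens * (q s m)²`. Next
`0 ≤ schurMono χ N' - schurMono χ N ≤ q s * (q s m)` (the pairs with `N < x + y ≤ N'`: at most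
`q s` values of `x + y`, then at most `q s m` values of `x`), and
`0 ≤ dens * ((q s m)² - N²) ≤ dens * (2 N q s + q² s²)`, with `0 ≤ dens ≤ 1/2` (`cnt ≤ 2 q² s²`). As
`m ≤ N + 1` all the errors are at most `C (N + 1)` with e.g. `C = 20 q² s²` (any `C` will do). -/
def G_STR : Prop :=
  G_ORD → G_BLK →
  ∀ (k q s : ℕ) (c : ℕ → ℕ → Fin k), 1 ≤ q → 1 ≤ s →
    ∃ C : ℝ, ∀ N : ℕ,
      |(schurMono (strc q s c N) N : ℝ) - dens q s c * (N : ℝ) ^ 2| ≤ C * (N + 1)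

/-- GOAL VAR (variance of the sample). Proof. Let `a = |A|`. For fixed `m` put `X x = 1` if
`x ≤ m ∧ m - x ∈ A` and `X x = 0` otherwise, `Y x = X x - rep A m / a`. `rep A m = ∑_{x ∈ A} X x`
(the pair is `(x, m - x)`), so `∑_{x ∈ A} Y x = 0`, `∑_{x ∈ A} (Y x)² ≤ ∑_{x ∈ A} (X x)² = rep A m`, and
`smp A I m - rep A m = (a / K) ∑_j Y (I j)`. Expanding the square,
`∑_I (∑_j Y (I j))² = ∑_{j, l} ∑_I Y (I j) Y (I l)`; for `j ≠ l` the inner sum is `0`, for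
`j = l` it is `a^(K-1) ∑_{x ∈ A} (Y x)²` (both by `Finset.prod_univ_sum`: a sum over `piFinset` of a product
is a product of sums). So `∑_I (smp - rep)² ≤ (a/K)² K a^(K-1) rep A m = a^K (a / K) rep A m`. Sum
over `m < M`: `∑_m rep A m ≤ a²`. -/
def G_VAR : Prop :=
  ∀ (A : Finset ℕ) (K M : ℕ), 1 ≤ K → A.Nonempty →
    ∑ I ∈ Fintype.piFinset (fun _ : Fin K => A), ∑ m ∈ range M, (smp A I m - rep A m) ^ 2 ≤
      (A.card : ℝ) ^ K * ((A.card : ℝ) ^ 3 / K)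

/-- GOAL PIG (pigeonhole). Proof. Choose `Q` with `2^(K k) < (Q + 1) δ^k`. Let
`𝓛 = Fintype.piFinset L` (functions `Fin k → Fin K → ℕ`), `|𝓛| = ∏ |L c| ≥ δ^k n^(K k)`. For
`t = 0, …, Q` the set `𝓛 + t` (add `t` to all the values; injective) consists of functions with values in
`[1, n + Q]`, there are `(n + Q)^(K k) ≤ (2 n)^(K k)` of them. If the `Q + 1` sets `𝓛 + t`
were disjoint, `(Q + 1) δ^k n^(K k) ≤ 2^(K k) n^(K k)`, a contradiction (`n ≥ 1`). So there are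
`t < t'` and `I, I' ∈ 𝓛` with `I + t = I' + t'`, i.e. `I = I' + q` with `q = t' - t`. (Also true for
`k = 0`: then take `q = 1`.) -/
def G_PIG : Prop :=
  ∀ (k K : ℕ) (δ : ℝ), 0 < δ → ∃ Q : ℕ, 1 ≤ Q ∧ ∀ n : ℕ, Q ≤ n →
    ∀ L : Fin k → Finset (Fin K → ℕ), (∀ c, ∀ I ∈ L c, ∀ j, I j ∈ Icc 1 n) →
    (∀ c, δ * (n : ℝ) ^ K ≤ (L c).card) →
    ∃ q : ℕ, 1 ≤ q ∧ q ≤ Q ∧ ∀ c, ∃ I ∈ L c, (fun j => I j + q) ∈ L c

/-- GOAL SHF (one good sample and its shift). Proof. `smp A (I + q) (m + q) = smp A I m` (the conditions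
`I j + q ≤ m + q`, `m + q - (I j + q) ∈ A`). So for `m ∈ [1, n]`
`(rep (m+q) - rep m)² ≤ 2 (smp A (I+q) (m+q) - rep (m+q))² + 2 (smp A I m - rep m)²`; sum over
`m ∈ [1, n]` (`m + q < 4 n`): at most `4 B`. Cauchy-Schwarz:
`(∑_{m ∈ [1,n]} |rep (m+q) - rep m|)² ≤ n * 4 B`. -/
def G_SHF : Prop :=
  ∀ (K n q : ℕ) (A : Finset ℕ) (I : Fin K → ℕ) (B : ℝ), 1 ≤ n → q ≤ n →
    ∑ m ∈ range (4 * n), (smp A I m - rep A m) ^ 2 ≤ B →
    ∑ m ∈ range (4 * n), (smp A (fun j => I j + q) m - rep A m) ^ 2 ≤ B →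
    (∑ m ∈ Icc 1 n, |(rep A (m + q) : ℝ) - rep A m|) ^ 2 ≤ n * (4 * B)

/-- GOAL CS (almost period). Proof, from VAR, PIG, SHF. We may assume `ε ≤ 1`. Choose
`K ≥ 8 / ε²`, `K ≥ 1`, `δ = (ε/2)^K / 2`, `Q` from PIG, `n0 = Q + 1`. Let `n ≥ n0`. For a colour `c` with
`|A c| < (ε/2) n` put `L c = piFinset (fun _ => Icc 1 n)`, of size `n^K ≥ δ n^K`. For the other colours
(`a = |A c| ≥ (ε/2) n > 0`) let `L c` be the set of the `I ∈ piFinset (fun _ => A c)` with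
`∑_{m < 4n} (smp - rep)² ≤ 2 a³ / K`; by VAR and Markov `|L c| ≥ a^K / 2 ≥ δ n^K`. PIG gives `q`. For a colour of the
first kind `∑_{m} |rep (m+q) - rep m| ≤ ∑ rep (m + q) + ∑ rep m ≤ 2 a² ≤ ε n²`
(`a ≤ (ε/2) n`, `ε ≤ 1`). For a colour of the second kind SHF with `B = 2 a³ / K ≤ 2 n³ / K`
gives `(∑ …)² ≤ 8 n⁴ / K ≤ ε² n⁴`. -/
def G_CS : Prop :=
  G_VAR → G_PIG → G_SHF →
  ∀ (k : ℕ) (ε : ℝ), 0 < ε → ∃ Q n0 : ℕ, ∀ n : ℕ, n0 ≤ n → ∀ A : Fin k → Finset ℕ,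
    (∀ c, A c ⊆ Icc 1 n) → ∃ q : ℕ, 1 ≤ q ∧ q ≤ Q ∧
      ∀ c, ∑ m ∈ Icc 1 n, |(rep (A c) (m + q) : ℝ) - rep (A c) m| ≤ ε * (n : ℝ) ^ 2

/-- GOAL DBL (double counting). Proof. Write `μ = mu q a i`, so `i + 1 ≤ μ ≤ i + q`, `μ ≡ a (mod q)`
(`(q - 1)(i + 1) ≡ -(i + 1)`), and `μ` is the only such integer. The map `(a, i) ↦ (u, i)`,
`u = μ - (i + 1) < q` is a bijection of `[0,q) × [0,n)` (inverse `a = (i + 1 + u) % q`). So
`cnt = ∑_{u, v < q} ∑_{e < 2} #{(i, j) ∈ [0,n)² : i + j + e < n, χ (i+1+u) = χ (j+1+v) = χ (μ')}`,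
`μ' = mu q ((a + b) % q) (i + j + e)`, the integer in `[i + j + e + 1, i + j + e + q]` congruent to
`z = i + j + 2 + u + v`: `μ' = z` if `u + v + 2 ≤ q + e`, and `μ' = z - q` otherwise. For given `u, v, e` the map
`(i, j) ↦ (x, y) = (i + 1 + u, j + 1 + v)` is injective, `x + y = z ≤ n + 2 q`. The pairs with
`x + y ≤ n` are counted by `ordP χ n 0` if `μ' = z` (`x, y ≤ n`), and by `ordP χ n q` if `μ' = z - q`
(`z - q ≥ i + j + e + 1 ≥ 1`). The others have `1 ≤ x ≤ n + 2q`, `n < x + y ≤ n + 2 q`: at most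
`(n + 2q) 2q ≤ 6 q n` pairs. The number of the `(u, v)` with `u + v + 2 ≤ q` is `q (q - 1) / 2`, with
`u + v + 1 ≤ q` it is `q (q + 1) / 2`; so in total (`e = 0` and `e = 1`) there are `q²` triples
`(u, v, e)` with `μ' = z` and `q²` with `μ' = z - q`. -/
def G_DBL : Prop :=
  ∀ (k n q : ℕ) (χ : ℕ → Fin k), 1 ≤ q → q ≤ n →
    cnt q n (fun a t => χ (mu q a t)) ≤
      q ^ 2 * (ordP χ n 0 + ordP χ n q) + 12 * q ^ 3 * n

/-- GOAL CMP. Proof. Let `A c = (Icc 1 n).filter (χ · = c)`. Grouping the pairs by the colour `c` and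
by `m = x + y - q ∈ [1, n]`: `ordP χ n q = ∑_c ∑_{m ∈ A c} rep (A c) (m + q)`, and
`ordP χ n 0 = ∑_c ∑_{m ∈ A c} rep (A c) m`. -/
def G_CMP : Prop :=
  ∀ (k n q : ℕ) (χ : ℕ → Fin k),
    (ordP χ n q : ℝ) ≤ ordP χ n 0 + ∑ c : Fin k, ∑ m ∈ Icc 1 n,
      |(rep ((Icc 1 n).filter (fun x => χ x = c)) (m + q) : ℝ) -
        rep ((Icc 1 n).filter (fun x => χ x = c)) m|

/-- GOAL LOW. Proof. Apply the conclusion of CS with `ε' = ε / (k + 1)` to the colour classes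
`A c = (Icc 1 n).filter (χ · = c)`, for `n ≥ n0`, `n ≥ Q`, `n ≥ 1`, `n ε ≥ 12 Q`. Take `s = n`,
`c a t = χ (mu q a t)`. By DBL and CMP, ORD:
`dens = cnt / (4 q² n²) ≤ (ordP χ n 0 + ordP χ n q) / (4 n²) + 3 q / n
≤ (2 ordP χ n 0 + k ε' n²) / (4 n²) + 3 Q / n ≤ schurMono χ n / n² + ε / 4 + ε / 4`. -/
def G_LOW : Prop :=
  G_ORD → G_DBL → G_CMP →
  (∀ (k : ℕ) (ε : ℝ), 0 < ε → ∃ Q n0 : ℕ, ∀ n : ℕ, n0 ≤ n → ∀ A : Fin k → Finset ℕ,
    (∀ c, A c ⊆ Icc 1 n) → ∃ q : ℕ, 1 ≤ q ∧ q ≤ Q ∧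
      ∀ c, ∑ m ∈ Icc 1 n, |(rep (A c) (m + q) : ℝ) - rep (A c) m| ≤ ε * (n : ℝ) ^ 2) →
  ∀ (k : ℕ) (ε : ℝ), 0 < ε → ∃ n0 : ℕ, ∀ n : ℕ, n0 ≤ n → ∀ χ : ℕ → Fin k,
    ∃ (q s : ℕ) (c : ℕ → ℕ → Fin k), 1 ≤ q ∧ 1 ≤ s ∧
      dens q s c ≤ (schurMono χ n : ℝ) / (n : ℝ) ^ 2 + ε

/-- GOAL MAIN. Proof. Let `D = {dens q s c}`, bounded below by `0` and nonempty (`k ≥ 1`), `L = sInf D`.
Upper bound: for `q, s, c` and all `N`, `schurMin k N ≤ schurMono (strc q s c N) N ≤ dens * N² + C (N+1)`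
(`Nat.sInf_le`), so `limsup schurMin k N / N² ≤ dens` for every `dens ∈ D`, i.e. for every `ε > 0` eventually
`schurMin k N / N² ≤ L + ε`. Lower bound: for `ε > 0` and `n ≥ n0` there is `χ` with
`schurMono χ n = schurMin k n` (`Nat.sInf_mem`, nonempty as `k ≥ 1`), so
`L ≤ dens ≤ schurMin k n / n² + ε`. -/
def G_MAIN : Prop :=
  (∀ (k q s : ℕ) (c : ℕ → ℕ → Fin k), 1 ≤ q → 1 ≤ s → ∃ C : ℝ, ∀ N : ℕ,
    |(schurMono (strc q s c N) N : ℝ) - dens q s c * (N : ℝ) ^ 2| ≤ C * (N + 1)) →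
  (∀ (k : ℕ) (ε : ℝ), 0 < ε → ∃ n0 : ℕ, ∀ n : ℕ, n0 ≤ n → ∀ χ : ℕ → Fin k,
    ∃ (q s : ℕ) (c : ℕ → ℕ → Fin k), 1 ≤ q ∧ 1 ≤ s ∧
      dens q s c ≤ (schurMono χ n : ℝ) / (n : ℝ) ^ 2 + ε) →
  ∀ k : ℕ, 1 ≤ k → ∃ L : ℝ,
    Tendsto (fun n : ℕ => (schurMin k n : ℝ) / (n : ℝ) ^ 2) atTop (𝓝 L) ∧
    IsGLB {d : ℝ | ∃ (q s : ℕ) (c : ℕ → ℕ → Fin k), 1 ≤ q ∧ 1 ≤ s ∧ d = dens q s c} L

end Pool.Agent.Helper87.SL
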